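import Pool.Agent.N753.SU.Idl
import Pool.Agent.N348.SU_UZM
import Pool.Agent.N225.PC.ProxM
import Pool.Agent.N434.PC.Pxa
import Pool.Agent.N93.PC.LOCW
import Pool.Agent.N703.PC.PolyV
import Pool.Agent.N459.DR.Red
import Pool.Agent.N130.PC.Cnt
import Pool.Agent.N130.PC.Root
import Pool.Agent.N364.PC.Lin
import Pool.Agent.N935.PC.Elim

/-!
# One exceptional set for the proximity functions of all divisors of a product of lines
-/

set_option autoImplicit false

namespace Pool.Agent.V8H31.AC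

open NumberField IsDedekindDomain Finset Pool.Agent.H691R3
open Pool.Agent.N753.LS Pool.Agent.N753.SF Pool.Agent.N753.SU
open Pool.Agent.N753.DR (StmProxM proxM HT AtH)

theorem stmProxM : StmProxM :=
  Pool.Agent.N225.PC.t (Pool.Agent.N434.PC.t Pool.Agent.N130.PC.Root.t Pool.Agent.N364.PC.t)
    (Pool.Agent.N93.PC.t Pool.Agent.N935.PC.elim_) Pool.Agent.N703.PC.t Pool.Agent.N459.DR.t
    Pool.Agent.N130.PC.Cnt.t

variable {K : Type} [Field K] [NumberField K]

/-- the proximity function at a point over `K` -/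
noncomputable def pr {m : ℕ} (S : Finset ℕ) (G : MvPolynomial (Fin m) K) (x : Fin m → K) : ℝ :=
  proxM S (fun i => G.degreeOf i) G x

theorem minpoly_K (x : K) : minpoly K x = Polynomial.X - Polynomial.C x := by
  have := minpoly.eq_X_sub_C K x
  simpa using this

theorem natDegree_minpoly_K (x : K) : (minpoly K x).natDegree = 1 := by
  rw [minpoly_K, Polynomial.natDegree_X_sub_C]

/-- **the proximity function is rarely large** -/
theorem thin_prox {m : ℕ} (G : MvPolynomial (Fin m) K) (hG : G ≠ 0) (S : Finset ℕ)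
    (hS : ∀ p ∈ S, p.Prime) {κ : ℝ} (hκ : 0 < κ) :
    Thin K m (fun H x => MvPolynomial.eval x G ≠ 0 ∧ κ * H < pr S G x) := by
  classical
  obtain ⟨n, hn⟩ : ∃ n : ℝ, n = (Module.finrank ℚ K : ℝ) := ⟨_, rfl⟩
  have hn0 : 0 < n := by rw [hn]; exact_mod_cast Module.finrank_pos
  obtain ⟨ν, C, hν, h⟩ := stmProxM K m (fun _ => 1) (fun i => G.degreeOf i) (fun _ => le_rfl) G hG
    (fun _ => le_rfl) S hS (κ / n) (by positivity)
  refine ⟨min ν 1, |C| + 1, lt_min hν one_pos, min_le_right _ _, by positivity, ?_⟩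
  intro H hH T hT
  obtain ⟨hf, hc⟩ := h H hH
  have e1 : (∑ _i : Fin m, (((1 : ℕ) : ℝ)) * (((1 : ℕ) : ℝ) + 1) - ν) = 2 * m - ν := by
    rw [Finset.sum_const, Finset.card_univ, Fintype.card_fin, nsmul_eq_mul]
    push_cast
    ring
  have e1' : (∑ i : Fin m, (((fun _ => 1 : Fin m → ℕ) i : ℕ) : ℝ) *
      ((((fun _ => 1 : Fin m → ℕ) i : ℕ) : ℝ) + 1) - ν) = 2 * m - ν := e1
  rw [e1'] at hc
  have hinj : Function.Injective (fun (x : Fin m → K) (i : Fin m) => minpoly K (x i)) := by
    intro x y hxy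
    funext i
    have h1 := congrFun hxy i
    simp only [minpoly_K] at h1
    have h2 := congrArg (Polynomial.eval (x i)) h1
    simp only [Polynomial.eval_sub, Polynomial.eval_X, Polynomial.eval_C, sub_self] at h2
    exact sub_eq_zero.1 h2.symm
  have h1 : (T.image fun (x : Fin m → K) (i : Fin m) => minpoly K (x i)).card = T.card :=
    Finset.card_image_of_injective _ hinj
  have h2 : ((T.image fun (x : Fin m → K) (i : Fin m) => minpoly K (x i)) :
      Set (Fin m → Polynomial K)) ⊆ {P : Fin m → Polynomial K |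
        (∃ (L : Type) (_ : Field L) (_ : NumberField L) (_ : Algebra K L)
      (x : Fin m → L), (∀ i, minpoly K (x i) = P i) ∧ MvPolynomial.aeval x G ≠ 0 ∧
      κ / n * H * Module.finrank ℚ L < proxM S (fun i => G.degreeOf i) G x) ∧
        HT (fun _ => 1) H P} := by
    intro P hP
    rw [Finset.mem_coe, Finset.mem_image] at hP
    obtain ⟨x, hx, rfl⟩ := hP
    obtain ⟨h3, h4, h5⟩ := hT x hx
    refine ⟨⟨K, inferInstance, inferInstance, inferInstance, x, fun _ => rfl, ?_, ?_⟩, ?_⟩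
    · rw [MvPolynomial.aeval_def, Algebra.algebraMap_self]
      exact h4
    · rw [← hn]
      have e2 : κ / n * H * n = κ * H := by field_simp
      rw [e2]
      exact h5
    · intro i
      refine ⟨K, inferInstance, inferInstance, inferInstance, x i, Module.finrank_self K,
        natDegree_minpoly_K _, rfl, ?_⟩
      have := h3 i
      rw [hr_aff] at this
      simpa using this
  have h3 := Set.ncard_le_ncard h2 hf
  rw [Set.ncard_coe_finset, h1] at h3
  have h4 : (T.card : ℝ) ≤ C * Real.exp ((2 * m - ν) * H) := le_trans (by exact_mod_cast h3) hc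
  refine h4.trans ?_
  have h5 : Real.exp ((2 * m - ν) * H) ≤ Real.exp ((2 * m - min ν 1) * H) := by
    refine Real.exp_le_exp.2 (mul_le_mul_of_nonneg_right ?_ hH)
    linarith [min_le_left ν 1]
  have h6 : C ≤ |C| + 1 := by linarith [le_abs_self C]
  exact mul_le_mul h6 h5 (Real.exp_pos _).le (by positivity)

variable (K) in
/-- **one exceptional set for the proximity functions of all divisors** -/
theorem all_prox (m : ℕ) (hm : 0 < m) :
    ∃ E : Set (Fin m → K), (∀ H : ℝ, 0 ≤ H → ((E ∩ {x | htm x ≤ H}).ncard : ℝ) ≤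
      2 * Real.exp (2 * m * H - √H)) ∧
      ∀ G : MvPolynomial (Fin m) K, G ≠ 0 → ∀ S : Finset ℕ, (∀ p ∈ S, p.Prime) → ∀ κ : ℝ, 0 < κ →
        ∃ h0 : ℝ, ∀ x : Fin m → K, x ∉ E → h0 ≤ htm x →
          MvPolynomial.eval x G ≠ 0 ∧ pr S G x ≤ κ * htm x := by
  classical
  have hc := countable_mv K m
  obtain ⟨e, he⟩ := exists_surjective_nat (MvPolynomial (Fin m) K × Finset ℕ × ℕ)
  obtain ⟨T, h, hT1, hT2⟩ := diag2 (X := Fin m → K) htm (fun H => box_fin H)
    (fun n => if (e n).1 ≠ 0 ∧ ∀ p ∈ (e n).2.1, p.Prime then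
      {x | MvPolynomial.eval x (e n).1 = 0 ∨
        (1 / ((e n).2.2 + 1 : ℝ)) * htm x < pr (e n).2.1 (e n).1 x} else ∅) (α := 2 * m) (by
      intro n
      by_cases hn : (e n).1 ≠ 0 ∧ ∀ p ∈ (e n).2.1, p.Prime
      · rw [if_pos hn]
        obtain ⟨κ, hκ⟩ : ∃ κ : ℝ, κ = 1 / ((e n).2.2 + 1 : ℝ) := ⟨_, rfl⟩
        rw [← hκ]
        have hκ0 : 0 < κ := by rw [hκ]; positivity
        obtain ⟨ν, C, hν, hν1, hC, hmain⟩ := (thin_ht (K := K) (⟨0, hm⟩ : Fin m)
          (κ := 1 / 2) (by norm_num) (by norm_num)).or ((thin_zero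
            Pool.Agent.N348.SU.zm (e n).1 hn.1).or
            (thin_prox (e n).1 hn.1 (e n).2.1 hn.2 (κ := κ / 2) (by positivity)))
        refine ⟨ν, C, hν, fun H hH => ?_⟩
        have hfin : ({x | MvPolynomial.eval x (e n).1 = 0 ∨
          κ * htm x < pr (e n).2.1 (e n).1 x} ∩ {x | htm x ≤ H}).Finite :=
          (box_fin H).subset Set.inter_subset_right
        rw [Set.ncard_eq_toFinset_card _ hfin]
        refine hmain H hH _ fun x hx => ?_
        rw [Set.Finite.mem_toFinset] at hx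
        obtain ⟨hx1, hx2⟩ := hx
        have hx2' : htm x ≤ H := hx2
        have hmon : ∀ i, hr (aff (x i)) ≤ htm x := fun i => by
          rw [hr_aff]
          exact le_htm x i
        refine ⟨fun i => (hmon i).trans hx2', ?_⟩
        by_cases h0 : hr (aff (x ⟨0, hm⟩)) < (1 - 1 / 2) * H
        · exact Or.inl h0
        right
        rw [not_lt] at h0
        by_cases h1 : MvPolynomial.eval x (e n).1 = 0
        · exact Or.inl h1
        right
        have h2 := hx1.resolve_left h1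
        have h3 := hmon ⟨0, hm⟩
        refine ⟨h1, lt_of_le_of_lt ?_ h2⟩
        have h4 := mul_le_mul_of_nonneg_left (h0.trans h3) hκ0.le
        linarith
      · refine ⟨1, 0, one_pos, fun H hH => ?_⟩
        rw [if_neg hn, Set.empty_inter, Set.ncard_empty, Nat.cast_zero, zero_mul])
  refine ⟨T, hT2, ?_⟩
  intro G hG S hS κ hκ
  obtain ⟨k, hk⟩ := exists_nat_gt (1 / κ)
  have hk2 : 1 / (k + 1 : ℝ) ≤ κ := by
    rw [div_lt_iff₀ hκ] at hk
    rw [div_le_iff₀ (by positivity)]
    nlinarith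
  obtain ⟨n, hn⟩ := he (G, S, k)
  refine ⟨h n, fun x hxT hxh => ?_⟩
  have h1 : x ∉ {x : Fin m → K | MvPolynomial.eval x G = 0 ∨
        (1 / (k + 1 : ℝ)) * htm x < pr S G x} := by
    intro hx
    have h2 := hT1 n x (by
      rw [hn, if_pos ⟨hG, hS⟩]
      exact hx) hxT
    linarith
  have h0 : 0 ≤ htm x := by
    have h2 := le_htm x ⟨0, hm⟩
    rw [← hr_aff] at h2
    exact (hr_aff_nonneg _).trans h2
  rw [Set.mem_ofPred_eq, not_or] at h1
  obtain ⟨h2, h3⟩ := h1
  have h4 := mul_le_mul_of_nonneg_right hk2 h0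
  exact ⟨h2, (not_lt.1 h3).trans h4⟩

end Pool.Agent.V8H31.AC
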